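import Mathlib
import Pool.Agent.X172.CorrDes

set_option autoImplicit false

/-!
# Hall's conjecture and the absolute points of correlations

A correlation of a symmetric design maps points to blocks and blocks to points and preserves the
incidence; a point is absolute if it lies on its image. If a symmetric `2-(v, k, lam)` design has a
correlation with `a` absolute points, then `k - lam` divides `(a - lam) ^ 2`; so `a = lam` or
`k ≤ lam + (a - lam) ^ 2`. For all but `O(√X)` of the `k ≤ X` every correlation whose square has
order composed of given primes has exactly `k` absolute points.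

Proof. Let `C` be the matrix of the correlation. Its transpose is `C Q`, with the permutation matrix
`Q` of the square of the correlation, which commutes with `C`; so `C ^ 2 Q = n I + lam J`, `n = k - lam`,
and the eigenvalues of `C` except one eigenvalue `k` are `√n` times roots of unity of order dividing
`2 m`. Therefore `(a - k) / √n` is an algebraic integer of the cyclotomic field. If a prime `q` divides
`n` to an odd power and not `m`, then the Frobenius congruence `x ^ (q ^ f) ≡ x` modulo `q` and descent
give `a = k`.
-/

namespace Pool.Agent.Results.MP_c38931_co.CorrelationAbsolutePoints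

/-- The blocks `B i` (`i : Fin v`) form a symmetric `2-(v, k, lam)` design on the points `Fin v`
with `2 ≤ k < v`. -/
structure IsSymmetricDesign (v k lam : ℕ) (B : Fin v → Finset (Fin v)) : Prop where
  two_le : 2 ≤ k
  lt : k < v
  size : ∀ i, (B i).card = k
  pair : ∀ x y : Fin v, x ≠ y →
    (Finset.univ.filter (fun i => x ∈ B i ∧ y ∈ B i)).card = lam

/-- The map which sends the point `x` to the block `B (p x)` and the block `B i` to the point `b i`
is a correlation: a point `x` lies on a block `B i` if and only if the image `b i` of the block lies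
on the image `B (p x)` of the point. -/
def IsCorrelation {v : ℕ} (B : Fin v → Finset (Fin v)) (p b : Equiv.Perm (Fin v)) : Prop :=
  ∀ x i, x ∈ B i ↔ b i ∈ B (p x)

/-- The number of the absolute points, that is, of the points `x` which lie on their image
`B (p x)`. -/
def absolute {v : ℕ} (B : Fin v → Finset (Fin v)) (p : Equiv.Perm (Fin v)) : ℕ :=
  (Finset.univ.filter (fun x => x ∈ B (p x))).card

/-- Let `lam ≥ 1`. Parts 1 to 4: for every symmetric `2-(v, k, lam)` design and every correlation with
`a` absolute points,
(1) `k - lam` divides `(a - lam) ^ 2`;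
(2) `a = lam` or `k ≤ lam + (a - lam) ^ 2`;
(3) if `a = 0` then `k ≤ lam + lam ^ 2`;
(4) if a prime `q` divides `k - lam` to an odd power and does not divide the order of the square of
the correlation (`b * p` is the square on the points) then `a = k`.
Part 5: if `M ≥ 1` and `X` is given, then for at most `d(M) √X` of the `k ≤ X` there is a symmetric
`2-(v, k, lam)` design with a correlation with `a ≠ k` absolute points such that all prime factors of
the order of its square divide `M`. -/
theorem result (lam : ℕ) (hlam : 1 ≤ lam) :
    (∀ (v k : ℕ) (B : Fin v → Finset (Fin v)) (p b : Equiv.Perm (Fin v)),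
      IsSymmetricDesign v k lam B → IsCorrelation B p b →
      (((k : ℤ) - lam) ∣ ((absolute B p : ℤ) - lam) ^ 2) ∧
      (absolute B p = lam ∨ (k : ℤ) ≤ lam + ((absolute B p : ℤ) - lam) ^ 2) ∧
      (absolute B p = 0 → k ≤ lam + lam ^ 2) ∧
      (∀ q : ℕ, q.Prime → ¬ q ∣ orderOf (b * p) → Odd (padicValNat q (k - lam)) →
        absolute B p = k)) ∧
    (∀ M X : ℕ, 0 < M →
      {k : ℕ | k ≤ X ∧ ∃ (v : ℕ) (B : Fin v → Finset (Fin v)) (p b : Equiv.Perm (Fin v)),
        IsSymmetricDesign v k lam B ∧ IsCorrelation B p b ∧
        (∀ q : ℕ, q.Prime → q ∣ orderOf (b * p) → q ∣ M) ∧ absolute B p ≠ k}.ncard ≤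
      M.divisors.card * Nat.sqrt X) := by
  refine ⟨?_, ?_⟩
  · intro v k B p b hB hc
    have hv : 2 ≤ v := hB.two_le.trans hB.lt.le
    obtain ⟨hlk, -, -⟩ := Pool.Agent.H951R4.OD.design_facts hv hlam hB.lt hB.size hB.pair
    obtain ⟨t, ht, -⟩ := Pool.Agent.X172.Corr.main_dvd hv hlam hB.lt hB.size hB.pair p b hc
    have hdvd : ((k : ℤ) - lam) ∣ ((absolute B p : ℤ) - lam) ^ 2 := by
      have h1 : ((absolute B p : ℤ) - k) ^ 2 = ((k : ℤ) - lam) * t := ht
      refine ⟨t + 2 * ((absolute B p : ℤ) - k) + ((k : ℤ) - lam), ?_⟩
      linear_combination h1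
    have h2 : absolute B p = lam ∨ (k : ℤ) ≤ lam + ((absolute B p : ℤ) - lam) ^ 2 := by
      by_cases h : absolute B p = lam
      · exact Or.inl h
      · right
        have h3 : (0 : ℤ) < ((absolute B p : ℤ) - lam) ^ 2 := by
          have : ((absolute B p : ℤ) - lam) ≠ 0 := by omega
          positivity
        have := Int.le_of_dvd h3 hdvd
        linarith
    refine ⟨hdvd, h2, ?_, ?_⟩
    · intro h0
      rw [h0] at h2
      rcases h2 with h | h
      · omega
      · have : (k : ℤ) ≤ lam + (lam : ℤ) ^ 2 := by
          push_cast at h
          linarith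
        exact_mod_cast this
    · intro q hq hqm hodd
      exact Pool.Agent.X172.Corr.main_odd hv hlam hB.lt hB.size hB.pair p b hc hq hqm hodd
  · intro M X hM
    refine Pool.Agent.X172.Corr.count_le lam M X hM _ ?_
    rintro k ⟨hk, v, B, p, b, hB, hc, hord, hne⟩
    have hv : 2 ≤ v := hB.two_le.trans hB.lt.le
    obtain ⟨hlk, -, -⟩ := Pool.Agent.H951R4.OD.design_facts hv hlam hB.lt hB.size hB.pair
    refine ⟨hk, hlk, ?_⟩
    intro q hq hodd
    by_contra hqM
    apply hne
    exact Pool.Agent.X172.Corr.main_odd hv hlam hB.lt hB.size hB.pair p b hc hq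
      (fun h => hqM (hord q hq h)) hodd

end Pool.Agent.Results.MP_c38931_co.CorrelationAbsolutePoints
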