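import Pool.Agent.X59.EQ.F

/-!
# Symmetric designs whose incidence is decided by few equality tests and comparisons

The incidence of a point `x` and a block `b` is decided adaptively by tests of the form `f(x) = g(b)`
or `f(x) ≤ g(b)` with arbitrary labellings `f` of the points and `g` of the blocks. For symmetric
`2-(v,k,λ)` designs with such a protocol, `k ≤ (λ + 1) 3^d` if it makes at most `d` tests, all of
them equality tests, and `v` is bounded in terms of `λ` and `d` if comparisons are allowed as well.

Outline. For sets `A` of points and `B` of blocks let `Φ = λ |A| + |B|`. A rectangle `A × B` of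
incident pairs has at most `Φ` elements, as two points are on `λ` common blocks. The positive result
of an equality test divides a rectangle into rectangles, whose sizes `Φ` add up. For the negative
result colour the labels red and blue in all possible ways and keep the points with red and the blocks
with blue labels: a pair with different labels survives with probability `1/4`, and `Φ` is halved on
average. A comparison is a union of about `log_2 v` equality tests. So there are at most `3^d Φ`
incident pairs in all, with `Φ = (λ + 1) v`.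
-/

set_option autoImplicit false
open Finset
open scoped Classical

namespace Pool.Agent.Results.MP_c38931_co.EqualityOracle

/-- The blocks `B i` form a symmetric `2-(v, k, lam)` design on the points `Fin v`. -/
structure IsSymmetricDesign (v k lam : ℕ) (B : Fin v → Finset (Fin v)) : Prop where
  two_le : 2 ≤ k
  lt : k < v
  size : ∀ i, (B i).card = k
  pair : ∀ x y : Fin v, x ≠ y → (univ.filter fun i => x ∈ B i ∧ y ∈ B i).card = lam

/-- Protocols. A leaf gives the answer, a node `eq` tests whether `f x = g i` and a node `le` tests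
whether `f x ≤ g i`, for the point `x` and the block number `i`. -/
inductive Protocol (v : ℕ) : Type
  | leaf (answer : Bool) : Protocol v
  | eq (f g : Fin v → ℕ) (yes no : Protocol v) : Protocol v
  | le (f g : Fin v → ℝ) (yes no : Protocol v) : Protocol v

/-- The largest number of tests. -/
def Protocol.tests {v : ℕ} : Protocol v → ℕ
  | .leaf _ => 0
  | .eq _ _ yes no => max yes.tests no.tests + 1
  | .le _ _ yes no => max yes.tests no.tests + 1

/-- All tests are equality tests. -/
def Protocol.OnlyEq {v : ℕ} : Protocol v → Prop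
  | .leaf _ => True
  | .eq _ _ yes no => yes.OnlyEq ∧ no.OnlyEq
  | .le _ _ _ _ => False

/-- The answer for the point `x` and the block number `i`. -/
noncomputable def Protocol.run {v : ℕ} : Protocol v → Fin v → Fin v → Bool
  | .leaf answer, _, _ => answer
  | .eq f g yes no, x, i => if f x = g i then yes.run x i else no.run x i
  | .le f g yes no, x, i => if f x ≤ g i then yes.run x i else no.run x i

/-- The protocol decides whether the point `x` lies on the block `B i`. -/
def Decides {v : ℕ} (t : Protocol v) (B : Fin v → Finset (Fin v)) : Prop :=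
  ∀ x i, t.run x i = true ↔ x ∈ B i

open Pool.Agent.X59 Pool.Agent.X59.EQ

/-- translation -/
def conv {v : ℕ} : Protocol v → DT (Fin 2 → Fin v)
  | .leaf b => .leaf b
  | .eq f g yes no => .node (fun x => f (x 0) = g (x 1)) (conv yes) (conv no)
  | .le f g yes no => .node (fun x => f (x 0) ≤ g (x 1)) (conv yes) (conv no)

theorem conv_depth {v : ℕ} (t : Protocol v) : (conv t).depth = t.tests := by
  induction t with
  | leaf b => rfl
  | eq f g a b iha ihb =>
    show max (conv a).depth (conv b).depth + 1 = max a.tests b.tests + 1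
    rw [iha, ihb]
  | le f g a b iha ihb =>
    show max (conv a).depth (conv b).depth + 1 = max a.tests b.tests + 1
    rw [iha, ihb]

theorem conv_in {v : ℕ} (t : Protocol v) : (conv t).In fun τ => IsEq τ ∨ IsCmp τ := by
  induction t with
  | leaf b => trivial
  | eq f g a b iha ihb => exact ⟨Or.inl ⟨0, 1, f, g, fun x => Iff.rfl⟩, iha, ihb⟩
  | le f g a b iha ihb => exact ⟨Or.inr ⟨0, 1, f, g, fun x => Iff.rfl⟩, iha, ihb⟩

theorem conv_in_eq {v : ℕ} (t : Protocol v) (ht : t.OnlyEq) : (conv t).In IsEq := by
  induction t with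
  | leaf b => trivial
  | eq f g a b iha ihb => exact ⟨⟨0, 1, f, g, fun x => Iff.rfl⟩, iha ht.1, ihb ht.2⟩
  | le f g a b iha ihb => exact False.elim ht

theorem conv_acc {v : ℕ} (t : Protocol v) (x : Fin 2 → Fin v) :
    (conv t).acc x ↔ t.run (x 0) (x 1) = true := by
  induction t with
  | leaf b => exact Iff.rfl
  | eq f g a b iha ihb =>
    show ((f (x 0) = g (x 1) ∧ (conv a).acc x) ∨ (¬ f (x 0) = g (x 1) ∧ (conv b).acc x)) ↔
      (if f (x 0) = g (x 1) then a.run (x 0) (x 1) else b.run (x 0) (x 1)) = true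
    rw [iha, ihb]
    by_cases h0 : f (x 0) = g (x 1)
    · simp [h0]
    · simp [h0]
  | le f g a b iha ihb =>
    show ((f (x 0) ≤ g (x 1) ∧ (conv a).acc x) ∨ (¬ f (x 0) ≤ g (x 1) ∧ (conv b).acc x)) ↔
      (if f (x 0) ≤ g (x 1) then a.run (x 0) (x 1) else b.run (x 0) (x 1)) = true
    rw [iha, ihb]
    by_cases h0 : f (x 0) ≤ g (x 1)
    · simp [h0]
    · simp [h0]

section design

variable {v k lam : ℕ} {B : Fin v → Finset (Fin v)}

theorem flags (hB : IsSymmetricDesign v k lam B) :
    (univ.filter fun z : Fin v × Fin v => z.1 ∈ B z.2).card = v * k := by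
  have : (univ.filter fun z : Fin v × Fin v => z.1 ∈ B z.2).card =
      ∑ i : Fin v, (univ.filter fun x => x ∈ B i).card := by
    rw [card_filter, Fintype.sum_prod_type_right]
    refine sum_congr rfl fun x _ => ?_
    rw [card_filter]
  rw [this]
  have h2 : ∀ i : Fin v, (univ.filter fun x => x ∈ B i).card = k := by
    intro i
    rw [← hB.size i]
    congr 1
    ext x
    simp
  rw [sum_congr rfl fun i _ => h2 i, sum_const, card_univ, Fintype.card_fin, smul_eq_mul]


/-- counting flags in a symmetric design (helper189, helper177) -/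
theorem points_le (hlam : 1 ≤ lam) (hB : IsSymmetricDesign v k lam B) : v ≤ k * k + 1 := by
  have hv : 3 ≤ v := by
    have := hB.two_le
    have := hB.lt
    omega
  have h1 : ∀ x, (Finset.univ.filter (fun i => x ∈ B i)).card * k
      = (Finset.univ.filter (fun i => x ∈ B i)).card + lam * (v - 1) := by
    intro x
    have e1 : ∑ y : Fin v, (Finset.univ.filter (fun i => x ∈ B i ∧ y ∈ B i)).card
        = (Finset.univ.filter (fun i => x ∈ B i)).card * k := by
      simp_rw [Finset.card_filter]
      rw [Finset.sum_comm, Finset.sum_mul]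
      refine Finset.sum_congr rfl fun i _ => ?_
      by_cases hx : x ∈ B i
      · simp [hx, hB.size i]
      · simp [hx]
    rw [← e1, ← Finset.add_sum_erase _ _ (Finset.mem_univ x)]
    congr 1
    · simp
    · rw [Finset.sum_congr rfl (g := fun _ => lam)]
      · simp [Finset.card_erase_of_mem, mul_comm]
      · intro y hy
        exact hB.pair x y (Finset.ne_of_mem_erase hy).symm
  have hsum : ∑ x : Fin v, (Finset.univ.filter (fun i => x ∈ B i)).card = v * k := by
    simp_rw [Finset.card_filter]
    rw [Finset.sum_comm]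
    rw [Finset.sum_congr rfl (g := fun _ => k)]
    · simp
    · intro i _
      rw [← hB.size i]; simp
  have h2 : v * k * k = v * k + v * (lam * (v - 1)) := by
    have h3 : ∑ x : Fin v, (Finset.univ.filter (fun i => x ∈ B i)).card * k =
        ∑ x : Fin v, ((Finset.univ.filter (fun i => x ∈ B i)).card + lam * (v - 1)) :=
      Finset.sum_congr rfl (fun x _ => h1 x)
    rw [← Finset.sum_mul, Finset.sum_add_distrib, hsum] at h3
    simpa using h3
  have h4 : v * (k * k) = v * (k + lam * (v - 1)) := by
    rw [← mul_assoc, h2]; ring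
  have h5 : k * k = k + lam * (v - 1) := Nat.eq_of_mul_eq_mul_left (by omega) h4
  have h6 : 1 * (v - 1) ≤ lam * (v - 1) := Nat.mul_le_mul_right _ hlam
  omega

theorem leaf_bound (hB : IsSymmetricDesign v k lam B) (C : Fin 2 → Finset (Fin v))
    (hC : ∀ x ∈ cellW (fun _ : Fin 2 → Fin v => True) C, x 0 ∈ B (x 1)) :
    ((cellW (fun _ : Fin 2 → Fin v => True) C).card : ℝ) ≤
      (lam : ℝ) * (C 0).card + 1 * (C 1).card := by
  rw [card_cell2]
  by_cases h : (C 0).card ≤ 1
  · have h1 : (C 0).card * (C 1).card ≤ lam * (C 0).card + 1 * (C 1).card :=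
      (Nat.mul_le_mul_right _ h).trans (Nat.le_add_left _ _)
    exact_mod_cast h1
  · obtain ⟨x, hx, y, hy, hxy⟩ := one_lt_card.1 (not_le.1 h)
    have h2 : (C 1).card ≤ lam := by
      rw [← hB.pair x y hxy]
      refine card_le_card fun i hi => ?_
      rw [mem_filter]
      exact ⟨mem_univ _, hC _ (mem_cell2 hx hi), hC _ (mem_cell2 hy hi)⟩
    have h3 : (C 0).card * (C 1).card ≤ lam * (C 0).card + 1 * (C 1).card := by
      rw [mul_comm lam]
      exact (Nat.mul_le_mul_left _ h2).trans (Nat.le_add_right _ _)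
    exact_mod_cast h3

theorem bound_eq (hB : IsSymmetricDesign v k lam B) (t : Protocol v) (ht : Decides t B)
    (hte : t.OnlyEq) : (k : ℝ) ≤ (lam + 1) * 3 ^ t.tests := by
  have hv0 : (0 : ℝ) < v := by
    have := hB.two_le
    have := hB.lt
    have : 0 < v := by omega
    exact_mod_cast this
  have h := cnt_eq (W := fun _ : Fin 2 → Fin v => True)
    (size_lin (V := Fin v) (Nat.cast_nonneg lam) zero_le_one)
    (S := fun x => x 0 ∈ B (x 1)) (leaf_bound hB) (conv t) (conv_in_eq t hte)
    (fun x _ hx => (ht _ _).1 ((conv_acc t x).1 hx))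
  rw [card_two (conv t) (univ.filter fun z : Fin v × Fin v => z.1 ∈ B z.2) (fun x => by
    rw [conv_acc, ht, mem_filter]
    exact ⟨fun h => ⟨mem_univ _, h⟩, fun h => h.2⟩), flags hB, conv_depth] at h
  rw [card_univ, Fintype.card_fin] at h
  push_cast at h
  have h2 : (v : ℝ) * k ≤ v * ((lam + 1) * 3 ^ t.tests) := by
    calc (v : ℝ) * k ≤ _ := h
      _ = _ := by ring
  exact le_of_mul_le_mul_left h2 hv0

theorem bound_cmp (hB : IsSymmetricDesign v k lam B) (t : Protocol v) (ht : Decides t B) {m : ℕ}
    (hm2 : 2 ≤ m) (hm : v < 2 ^ m) : (k : ℝ) ≤ (lam + 1) * (2 * m) ^ t.tests := by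
  have hv0 : (0 : ℝ) < v := by
    have := hB.two_le
    have := hB.lt
    have : 0 < v := by omega
    exact_mod_cast this
  have h := cnt_cmp hm2 (by rw [Fintype.card_fin]; exact hm) (W := fun _ : Fin 2 → Fin v => True)
    (size_lin (V := Fin v) (Nat.cast_nonneg lam) zero_le_one)
    (S := fun x => x 0 ∈ B (x 1)) (leaf_bound hB) (conv t) (conv_in t)
    (fun x _ hx => (ht _ _).1 ((conv_acc t x).1 hx))
  rw [card_two (conv t) (univ.filter fun z : Fin v × Fin v => z.1 ∈ B z.2) (fun x => by
    rw [conv_acc, ht, mem_filter]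
    exact ⟨fun h => ⟨mem_univ _, h⟩, fun h => h.2⟩), flags hB, conv_depth] at h
  rw [card_univ, Fintype.card_fin] at h
  push_cast at h
  have h2 : (v : ℝ) * k ≤ v * ((lam + 1) * (2 * m) ^ t.tests) := by
    calc (v : ℝ) * k ≤ _ := h
      _ = _ := by ring
  exact le_of_mul_le_mul_left h2 hv0

end design

theorem log_facts {v : ℕ} (hv : 3 ≤ v) : 2 ≤ Nat.log 2 v + 1 ∧ v < 2 ^ (Nat.log 2 v + 1) := by
  refine ⟨?_, Nat.lt_pow_succ_log_self (by norm_num) v⟩
  have : Nat.log 2 2 ≤ Nat.log 2 v := Nat.log_mono_right (by omega)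
  have h2 : Nat.log 2 2 = 1 := by
    rw [Nat.log_eq_iff] <;> norm_num
  omega

/-- Let the blocks `B i` form a symmetric `2-(v, k, lam)` design, `2 ≤ k < v`, and let `t` be a
protocol deciding the incidence with at most `d` tests. (1) If all tests are equality tests, then
`k ≤ (lam + 1) 3^d`. (2) In general, `k ≤ (lam + 1) (2 ⌊log_2 v⌋ + 2)^d`. (3) For all `lam ≥ 1`
and `d` there is `N` such that `v ≤ N` for all these designs. -/
theorem result :
    (∀ (v k lam d : ℕ) (B : Fin v → Finset (Fin v)), IsSymmetricDesign v k lam B →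
      ∀ t : Protocol v, Decides t B → t.tests ≤ d → t.OnlyEq → k ≤ (lam + 1) * 3 ^ d) ∧
    (∀ (v k lam d : ℕ) (B : Fin v → Finset (Fin v)), IsSymmetricDesign v k lam B →
      ∀ t : Protocol v, Decides t B → t.tests ≤ d →
        k ≤ (lam + 1) * (2 * Nat.log 2 v + 2) ^ d) ∧
    (∀ lam d : ℕ, 1 ≤ lam → ∃ N : ℕ, ∀ (v k : ℕ) (B : Fin v → Finset (Fin v)),
      IsSymmetricDesign v k lam B → ∀ t : Protocol v, Decides t B → t.tests ≤ d → v ≤ N) := by
  have hthree : ∀ {v k lam : ℕ} {B : Fin v → Finset (Fin v)}, IsSymmetricDesign v k lam B →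
      3 ≤ v := by
    intro v k lam B hB
    have := hB.two_le
    have := hB.lt
    omega
  have h2 : ∀ (v k lam d : ℕ) (B : Fin v → Finset (Fin v)), IsSymmetricDesign v k lam B →
      ∀ t : Protocol v, Decides t B → t.tests ≤ d →
        k ≤ (lam + 1) * (2 * Nat.log 2 v + 2) ^ d := by
    intro v k lam d B hB t ht htd
    obtain ⟨e1, e2⟩ := log_facts (hthree hB)
    have h := bound_cmp hB t ht e1 e2
    have h' : k ≤ (lam + 1) * (2 * (Nat.log 2 v + 1)) ^ t.tests := by exact_mod_cast h
    refine h'.trans (Nat.mul_le_mul_left _ ?_)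
    rw [show 2 * (Nat.log 2 v + 1) = 2 * Nat.log 2 v + 2 by ring]
    exact Nat.pow_le_pow_right (by omega) htd
  refine ⟨?_, h2, ?_⟩
  · intro v k lam d B hB t ht htd hte
    have h := bound_eq hB t ht hte
    have h' : k ≤ (lam + 1) * 3 ^ t.tests := by exact_mod_cast h
    exact h'.trans (Nat.mul_le_mul_left _ (Nat.pow_le_pow_right (by norm_num) htd))
  · intro lam d hlam
    obtain ⟨M, hM⟩ := poly_exp (4 * (lam + 1) ^ 2 * 4 ^ d) (2 * d)
    refine ⟨2 ^ M, fun v k B hB t ht htd => ?_⟩
    obtain ⟨e1, e2⟩ := log_facts (hthree hB)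
    set m := Nat.log 2 v + 1 with hm
    have hk : k ≤ (lam + 1) * (2 * m) ^ d := by
      have := h2 v k lam d B hB t ht htd
      rw [show 2 * Nat.log 2 v + 2 = 2 * m by omega] at this
      exact this
    have hv : v ≤ k * k + 1 := points_le hlam hB
    have hk1 : 1 ≤ k * k := Nat.mul_pos (by have := hB.two_le; omega) (by have := hB.two_le; omega)
    have h3 : 2 ^ Nat.log 2 v ≤ v := Nat.pow_log_le_self 2 (by have := hthree hB; omega)
    have h4 : 2 ^ m ≤ 4 * (k * k) := by
      rw [hm, pow_succ]
      omega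
    have h5 : k * k ≤ ((lam + 1) * (2 * m) ^ d) * ((lam + 1) * (2 * m) ^ d) := Nat.mul_le_mul hk hk
    have h6 : (2 : ℝ) ^ m ≤ 4 * (lam + 1) ^ 2 * 4 ^ d * (m : ℝ) ^ (2 * d) := by
      have h7 : 2 ^ m ≤ 4 * (((lam + 1) * (2 * m) ^ d) * ((lam + 1) * (2 * m) ^ d)) :=
        h4.trans (Nat.mul_le_mul_left _ h5)
      have h8 : (2 : ℝ) ^ m ≤
          4 * (((lam + 1) * (2 * m) ^ d) * ((lam + 1) * (2 * m) ^ d)) := by exact_mod_cast h7
      refine h8.trans (le_of_eq ?_)
      rw [mul_pow, pow_mul, show (4 : ℝ) ^ d = 2 ^ d * 2 ^ d by rw [← mul_pow]; norm_num]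
      rw [← pow_mul, mul_comm 2 d, pow_mul, pow_two]
      ring
    have h9 := hM m h6
    have h10 : 2 ^ m ≤ 2 ^ M := Nat.pow_le_pow_right (by norm_num) h9
    omega

end Pool.Agent.Results.MP_c38931_co.EqualityOracle
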