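import Pool.Agent.Results.MP_c38931_co.ReciprocalSum
import Pool.Agent.Results.MP_c38931_co.SolvableTransitive
import Pool.Agent.X283.DA.LogAny

/-!
# Block sizes of symmetric designs: none near fast sequences, none among denominators of approximations

`NoBlockSize lam k`: no symmetric `2-(v, k, lam)` design has a solvable point-transitive group of
automorphisms. Let `β = 1`, or `β = 9 / 8` if `lam ≥ 2` is not a square.

* For almost all `t > 1`, all `lam` at once: `NoBlockSize lam` holds for ALL integers within `κ_n ^ θ` of `t ^ κ_n`, `n ≥ n₀`,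
  if `κ_n → ∞` and `∑ κ_n ^ (-u) < ∞` for some `u < β - θ`; for `lam` not a square this includes
  `κ_n = n` and `θ < 1 / 8`. The same for `α exp(κ_n)` and almost all `α > 0`.
* For almost all `x ∈ ℝ ^ d`, all `lam` at once: `NoBlockSize lam` holds for ALL large `q` such that `q x_i` is within
  `q ^ (-θ_i) (log q) ^ (-c_i)` of `y_i` modulo `1` for all `i`, if `θ_1 + ... + θ_d = 1` and
  `c_1 + ... + c_d > 1 - β`; for `lam` not a square this includes `c = 0`, in particular the denominators
  of all the convergents of almost every real number.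
-/

set_option autoImplicit false

namespace Pool.Agent.Results.MP_c38931_co.PowersAndDenominators

open Pool.Agent.X283.DA
open Pool.Agent.Results.MP_c38931_co.ReciprocalSum (IsSolvableTransitiveDesign)

/-- there is no symmetric `2-(v, k, lam)` design (`v` arbitrary, `2 ≤ k < v`) with a solvable
point-transitive group of automorphisms -/
def NoBlockSize (lam k : ℕ) : Prop :=
  ∀ (v : ℕ) (B : Fin v → Finset (Fin v)) (H : Subgroup (Equiv.Perm (Fin v))),
    ¬ IsSolvableTransitiveDesign v k lam B H

theorem sparse (lam : ℕ) (hlam : 1 ≤ lam) (b : ℝ) (hb : b < 1) :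
    LogSparse {k : ℕ | ¬ NoBlockSize lam k} b := by
  obtain ⟨C, hC0, hC⟩ :=
    Pool.Agent.Results.MP_c38931_co.SolvableTransitive.result lam hlam (1 - b) (by linarith)
  refine ⟨C, hC0.le, fun X hX => ?_⟩
  have h1 := hC X hX
  have e : (1 - b - 1 : ℝ) = -b := by ring
  rw [e] at h1
  refine le_trans ?_ h1
  refine Nat.cast_le.2 (Set.ncard_le_ncard ?_ ((Set.finite_Iic X).subset fun t ht => ht.1))
  rintro k ⟨hk, hkX⟩
  have hk' : ¬ NoBlockSize lam k := hk
  unfold NoBlockSize at hk'
  push Not at hk'
  obtain ⟨v, B, H, h⟩ := hk'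
  exact ⟨hkX, v, B, H, ⟨h.two_le, h.lt, h.size, h.pair, h.transitive, h.aut, h.solvable⟩⟩

theorem sparse_nonsquare (lam : ℕ) (hlam : 2 ≤ lam) (hsq : ¬ IsSquare lam) (b : ℝ) (hb : b < 9 / 8) :
    LogSparse {k : ℕ | ¬ NoBlockSize lam k} b := by
  obtain ⟨C, hC0, hC⟩ := (Pool.Agent.Results.MP_c38931_co.ReciprocalSum.result lam hlam hsq).1
    (9 / 8 - b) (by linarith)
  refine ⟨C, hC0.le, fun X hX => ?_⟩
  have h1 := hC X hX
  have e : (9 / 8 - b - 9 / 8 : ℝ) = -b := by ring
  rw [e] at h1
  refine le_trans ?_ h1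
  refine Nat.cast_le.2 (Set.ncard_le_ncard ?_ ((Set.finite_Iic X).subset fun t ht => ht.1))
  rintro k ⟨hk, hkX⟩
  have hk' : ¬ NoBlockSize lam k := hk
  unfold NoBlockSize at hk'
  push Not at hk'
  obtain ⟨v, B, H, h⟩ := hk'
  exact ⟨hkX, v, B, H, h⟩

/-- **Theorem.** The properties `NoBlockSize lam` of natural numbers, for all `lam ≥ 1` at once, hold near
the fast sequences `t ^ κ_n` and `α exp(κ_n)` (in the sense of `FamFast`) and for the denominators of
good simultaneous (inhomogeneous) rational approximations (`FamDenominators`), with `β = 1`; for all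
`lam ≥ 2` which are not squares they hold at once with `β = 9 / 8`. -/
theorem result :
    (FamFast (fun lam : {l : ℕ // 1 ≤ l} => NoBlockSize lam) 1 ∧
      FamDenominators (fun lam : {l : ℕ // 1 ≤ l} => NoBlockSize lam) 1) ∧
    (FamFast (fun lam : {l : ℕ // 2 ≤ l ∧ ¬ IsSquare l} => NoBlockSize lam) (9 / 8) ∧
      FamDenominators (fun lam : {l : ℕ // 2 ≤ l ∧ ¬ IsSquare l} => NoBlockSize lam) (9 / 8)) :=
  ⟨pack_fam _ one_pos fun lam b _ hb => sparse lam lam.2 b hb,
    pack_fam _ (by norm_num) fun lam b _ hb => sparse_nonsquare lam lam.2.1 lam.2.2 b hb⟩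

end Pool.Agent.Results.MP_c38931_co.PowersAndDenominators
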