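import Pool.Agent.X20.Tr.Fac
import Pool.Agent.X20.Tr.Int
import Pool.Agent.Results.MP_c38931_co.DensityZero
import Pool.Agent.Results.MP_c38931_co.PrimeFactorsRegular

/-!
# Block sizes and orders of symmetric designs among the numbers `⌊α n ^ c⌋`

From Mathlib: `dimH E`: the Hausdorff dimension; `⌊x⌋₊`: the integer part; `Finset.Icc 1 N`: the integers from `1` to
`N`; `m.primeFactorsList.length`: the number of the prime factors of `m` with multiplicity; `𝓝 0`: the neighbourhoods of `0`.
From the team's `PrimeFactorsRegular`: `IsRegularOrder lam m`: `m` is the order of a symmetric `2-(v, m + lam, lam)` design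
(`v` arbitrary, `2 ≤ m + lam < v`) with a group of automorphisms which acts regularly on the points;
`IsNilpotentRegularOrder lam m`: the same with a nilpotent group.
-/

set_option autoImplicit false

namespace Pool.Agent.Results.MP_c38931_co.SparseBlockSizes

open Finset Filter Topology
open Pool.Agent.X20.Tr
open Pool.Agent.Y854.PS (ms xs)
open Pool.Agent.Results.MP_c38931_co.PrimeFactorsRegular (IsRegularOrder IsNilpotentRegularOrder)

open Classical in
/-- `k` is the block size of a symmetric `2-(v, k, lam)` design with `2 ≤ k < v` such that `lam` is not a square or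
`v ≢ 1 (mod 4)` -/
def BlockSize (lam k : ℕ) : Prop :=
  ∃ (v : ℕ) (B : Fin v → Finset (Fin v)), 2 ≤ k ∧ k < v ∧ (∀ i, (B i).card = k) ∧
    (∀ x y : Fin v, x ≠ y → (Finset.univ.filter (fun i => x ∈ B i ∧ y ∈ B i)).card = lam) ∧
    (¬ IsSquare lam ∨ v % 4 ≠ 1)

/-- `m` has exactly `j` prime factors, counted with multiplicity -/
def Factors (j m : ℕ) : Prop := m.primeFactorsList.length = j

/-- `m` has exactly `j` prime factors, and is the order of a symmetric design with the given `lam` and a regular group of
automorphisms, or `m ^ 2` is the order of a symmetric design with this `lam` and a nilpotent regular group of automorphisms -/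
def RegularOrder (lam j m : ℕ) : Prop :=
  m.primeFactorsList.length = j ∧ (IsRegularOrder lam m ∨ IsNilpotentRegularOrder lam (m ^ 2))

open Classical in
/-- the number of the `n`, `1 ≤ n ≤ N`, such that `P ⌊α n ^ c⌋` -/
noncomputable def along (c α : ℝ) (P : ℕ → Prop) (N : ℕ) : ℕ :=
  ((Icc 1 N).filter (fun n : ℕ => P ⌊α * (n : ℝ) ^ c⌋₊)).card

open Classical in
lemma along_eq (c α : ℝ) {P : ℕ → Prop} {B : Set ℕ} (hB : ∀ n, P n ↔ n ∈ B) (N : ℕ) :
    along c α P N = ((Icc 1 N).filter (fun n => ms α c n ∈ B)).card := by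
  unfold along
  exact card_filt _ fun _ => hB _

/-- For every real `c > 1` there are `κ > 0` and a set `E` of real numbers of Hausdorff dimension at most `1 - κ`
such that for every real `α > 0` outside `E`:

(1) for ALL `lam ≥ 1` and ALL integers `h ≥ 0` the set of the `n` such that `⌊α n ^ c⌋ + h` is the block size of a symmetric
`2-(v, k, lam)` design with `lam` not a square or `v ≢ 1 (mod 4)` has density zero (`h = lam`: the set of the `n` such that
`⌊α n ^ c⌋` is the order of such a design);

(2) for ALL `lam ≥ 2` and `j ≥ 1`, among the `n` such that `⌊α n ^ c⌋` has exactly `j` prime factors (for `j = 1`: is a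
prime), the proportion of those such that `⌊α n ^ c⌋` is the order of a symmetric design with this `lam` and a regular group
of automorphisms, or its square is the order of such a design with a nilpotent regular group, tends to `0`. -/
theorem result (c : ℝ) (hc : 1 < c) : ∃ κ : ℝ, 0 < κ ∧ κ < 1 ∧ ∃ E : Set ℝ, dimH E ≤ ENNReal.ofReal (1 - κ) ∧
    ∀ α : ℝ, 0 < α → α ∉ E →
      (∀ lam h : ℕ, 1 ≤ lam →
        Tendsto (fun N : ℕ => (along c α (fun m => BlockSize lam (m + h)) N : ℝ) / N) atTop (𝓝 0)) ∧
      ∀ lam j : ℕ, 2 ≤ lam → 1 ≤ j →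
        Tendsto (fun N : ℕ => (along c α (RegularOrder lam j) N : ℝ) / along c α (Factors j) N) atTop (𝓝 0) := by
  classical
  obtain ⟨κ, hκ0, hκ1, H⟩ := use c hc
  refine ⟨κ, hκ0, hκ1, ?_⟩
  obtain ⟨E, hE, hh⟩ := H (fun _ _ => ∅) ((ℕ × ℕ) ⊕ ((ℕ × ℕ) ⊕ ℕ)) (fun i => match i with
    | Sum.inl j => {m | BlockSize j.1 (m + j.2)}
    | Sum.inr (Sum.inl j) => {m | RegularOrder j.1 j.2 m}
    | Sum.inr (Sum.inr j) => {m | Factors j m})
  refine ⟨E, hE, fun α hα hαE => ?_⟩
  obtain ⟨_, _, h3⟩ := hh α hα hαE
  refine ⟨fun lam h hlam => ?_, fun lam j hlam hj => ?_⟩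
  · have hC : Cmp c α κ (ind {m | BlockSize lam (m + h)}) := h3 (Sum.inl (lam, h))
    have h4 : Tendsto (fun X : ℕ => (cnt {m | BlockSize lam (m + h)} X : ℝ) / X) atTop (𝓝 0) := by
      have hP := DensityZero.result lam hlam
      have hsh : Tendsto (fun X : ℕ => X + (h + 1)) atTop atTop := tendsto_add_atTop_nat (h + 1)
      have k1 := (hP.comp hsh).const_mul 2
      rw [mul_zero] at k1
      refine squeeze_zero' (Eventually.of_forall fun X => by positivity) ?_ k1
      filter_upwards [eventually_ge_atTop (h + 1)] with X hX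
      have hX1 : (0 : ℝ) < X := by
        have : 0 < X := by omega
        exact_mod_cast this
      have hY1 : (0 : ℝ) < ((X + (h + 1) : ℕ) : ℝ) := by
        have : 0 < X + (h + 1) := by omega
        exact_mod_cast this
      have h7 : ((X + (h + 1) : ℕ) : ℝ) ≤ 2 * X := by
        have : X + (h + 1) ≤ 2 * X := by omega
        exact_mod_cast this
      have h8 : (cnt {m | BlockSize lam (m + h)} X : ℝ) ≤
          (((range (X + (h + 1))).filter fun k => BlockSize lam k).card : ℝ) := by
        rw [Nat.cast_le]
        unfold cnt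
        refine card_le_card_of_injOn (fun m => m + h) ?_ (fun a _ b _ hab => by
          have : a + h = b + h := hab
          omega)
        intro m hm
        rw [mem_coe] at hm
        replace hm := mem_filt.1 hm
        have hm1 := mem_Icc.1 hm.1
        rw [mem_coe]
        refine mem_filt.2 ⟨mem_range.2 ?_, hm.2⟩
        show m + h < X + (h + 1)
        omega
      show (cnt {m | BlockSize lam (m + h)} X : ℝ) / X ≤
        2 * ((((range (X + (h + 1))).filter fun k => BlockSize lam k).card : ℝ) / ((X + (h + 1) : ℕ) : ℝ))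
      rw [mul_div_assoc', div_le_div_iff₀ hX1 hY1]
      have h9 : (0 : ℝ) ≤ (((range (X + (h + 1))).filter fun k => BlockSize lam k).card : ℝ) := Nat.cast_nonneg _
      calc (cnt {m | BlockSize lam (m + h)} X : ℝ) * ((X + (h + 1) : ℕ) : ℝ)
          ≤ (((range (X + (h + 1))).filter fun k => BlockSize lam k).card : ℝ) * (2 * X) :=
            mul_le_mul h8 h7 hY1.le h9
        _ = 2 * (((range (X + (h + 1))).filter fun k => BlockSize lam k).card : ℝ) * X := by ring
    have h5 := (nat_iff hc hα hκ0 hκ1 hC 0).1 h4
    refine h5.congr fun N => ?_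
    exact congrArg (fun x : ℕ => (x : ℝ) / N) (hit_form c α (fun m : ℕ => BlockSize lam (m + h)) N).symm
  · refine ratio_tend (fun N => Nat.cast_nonneg _) (fun N => Nat.cast_nonneg _) fun ε hε => ?_
    have hG : Cmp c α κ (ind {m | RegularOrder lam j m}) := h3 (Sum.inr (Sum.inl (lam, j)))
    have hQ : Cmp c α κ (ind {m | Factors j m}) := h3 (Sum.inr (Sum.inr j))
    obtain ⟨N₀, h4⟩ := rel hc hα hκ0 hκ1.le hG hQ
      (rel_factors hj (fun _ => Iff.rfl) (fun _ => Iff.rfl) (PrimeFactorsRegular.result lam j hlam hj))
      (factors_thick hj fun _ => Iff.rfl) ε hε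
    refine ⟨N₀, fun N hN => ?_⟩
    rw [along_eq c α (P := RegularOrder lam j) (B := {m | RegularOrder lam j m}) (fun _ => Iff.rfl),
      along_eq c α (P := Factors j) (B := {m | Factors j m}) (fun _ => Iff.rfl)]
    exact h4 N hN

end Pool.Agent.Results.MP_c38931_co.SparseBlockSizes
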